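import Pool.Agent.PFS.Stmts

/-!
# PFS, row ZST: the zoom step
-/

set_option autoImplicit false

open Matrix Filter Topology

namespace Pool.Agent.PFS.H75

open Pool.Agent.PFS

lemma same_refl_smul {n K : ℕ} (w : Fin K → V n) (c : Fin K → ℝ) (hc : ∀ i, 0 < c i) :
    Same (fun i => c i • w i) w :=
  ⟨Equiv.refl _, c, hc, fun _ => rfl⟩

theorem zst (zom : ZomStmt) (elm : ElmStmt) (lps : LpsStmt) (nin : NinStmt) (ncl : NclStmt)
    (nop : NopStmt) : ZstStmt := by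
  intro n C Γ h K hK w x u M₁ M₂ hM2 hw hx hn1 hn2
  have hcard : 2 ≤ Fintype.card (Fin K) := by rwa [Fintype.card_fin]
  obtain ⟨e1, e2, -, -, e5⟩ := elm n C Γ h (Fin K) w hw
  -- first zoom
  obtain ⟨φ1, g, s, q, hφ1, hg, hs, hq, hlim⟩ :=
    zom n C Γ h (fun m => pt w (u m)) (fun m => (e5 (u m)).1) (fun m => (e5 (u m)).2)
  have ha : ∀ m, IsPES C Γ (fun i => s m • act (g m) ((2 : ℝ) ^ (u (φ1 m) i) • w i)) := by
    intro m
    have h1 := e1 (fun i => (2 : ℝ) ^ (u (φ1 m) i)) (fun i => by positivity)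
    exact (elm n C Γ h (Fin K) _ h1).2.1 (g m) (hg m) (s m) (hs m)
  have hasum : ∀ m, ∑ i, s m • act (g m) ((2 : ℝ) ^ (u (φ1 m) i) • w i)
      = s m • act (g m) (pt w (u (φ1 m))) := by
    intro m
    rw [← Finset.smul_sum, ← CC.act_sum]
    rfl
  obtain ⟨φ2, W, hφ2, hW, hWsum, hWP⟩ := lps n C Γ h (Fin K) hcard
    (fun m i => s m • act (g m) ((2 : ℝ) ^ (u (φ1 m) i) • w i)) q ha hq
    (by simp only [hasum]; exact hlim)
  -- coefficients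
  choose c hcpos hc1 hc2 using hn1
  have hb : ∀ m, IsPES C Γ (fun i => s m • act (g m) (c (φ1 m) i • x (φ1 m) i)) := by
    intro m
    have h1 := (elm n C Γ h (Fin K) _ (hx (φ1 m))).1 (c (φ1 m)) (hcpos (φ1 m))
    exact (elm n C Γ h (Fin K) _ h1).2.1 (g m) (hg m) (s m) (hs m)
  have hbsum : ∀ m, ∑ i, s m • act (g m) (c (φ1 m) i • x (φ1 m) i)
      = s m • act (g m) (∑ i, c (φ1 m) i • x (φ1 m) i) := by
    intro m
    rw [← Finset.smul_sum, ← CC.act_sum]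
  have hlow : ∀ m, s m • act (g m) (∑ i, c (φ1 m) i • x (φ1 m) i)
      - s m • act (g m) (pt w (u (φ1 m))) ∈ closure C := by
    intro m
    rw [← smul_sub, ← CC.act_sub]
    exact (h.sact_cl_iff (hg m) (hs m)).mpr (hc1 (φ1 m))
  have hupp : ∀ m, M₁ • (s m • act (g m) (pt w (u (φ1 m))))
      - s m • act (g m) (∑ i, c (φ1 m) i • x (φ1 m) i) ∈ closure C := by
    intro m
    rw [smul_comm, ← smul_sub, ← CC.act_smul, ← CC.act_sub]
    exact (h.sact_cl_iff (hg m) (hs m)).mpr (hc2 (φ1 m))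
  -- the limit along φ2 of the zoomed points
  have hP : Tendsto (fun m => s (φ2 m) • act (g (φ2 m)) (pt w (u (φ1 (φ2 m))))) atTop (𝓝 q) :=
    hlim.comp hφ2.tendsto_atTop
  -- the sums are bounded
  obtain ⟨B, hB, hnorm⟩ := h.normal
  obtain ⟨R, hR⟩ : ∃ R : ℝ, ∀ m, ‖s (φ2 m) • act (g (φ2 m)) (pt w (u (φ1 (φ2 m))))‖ ≤ R := by
    obtain ⟨R, hR⟩ := hP.norm.bddAbove_range
    exact ⟨R, fun m => hR ⟨m, rfl⟩⟩
  have hbound : ∀ m, s (φ2 m) • act (g (φ2 m)) (∑ i, c (φ1 (φ2 m)) i • x (φ1 (φ2 m)) i)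
      ∈ Metric.closedBall (0 : V n) (B * (|M₁| * R)) := by
    intro m
    rw [Metric.mem_closedBall, dist_zero_right]
    have hcl : s (φ2 m) • act (g (φ2 m)) (∑ i, c (φ1 (φ2 m)) i • x (φ1 (φ2 m)) i)
        ∈ closure C := by
      refine h.cl_of_le (x := s (φ2 m) • act (g (φ2 m)) (pt w (u (φ1 (φ2 m))))) ?_ (hlow (φ2 m))
      exact (h.sact_cl_iff (hg _) (hs _)).mpr (subset_closure (e5 _).1)
    refine (hnorm _ _ hcl (hupp (φ2 m))).trans ?_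
    rw [norm_smul, Real.norm_eq_abs]
    exact mul_le_mul_of_nonneg_left (mul_le_mul_of_nonneg_left (hR m) (abs_nonneg _)) hB.le
  obtain ⟨Q, -, φ3, hφ3, hQ⟩ := (isCompact_closedBall (0 : V n) (B * (|M₁| * R))).tendsto_subseq
    hbound
  have hP3 : Tendsto (fun m => s (φ2 (φ3 m)) • act (g (φ2 (φ3 m)))
      (pt w (u (φ1 (φ2 (φ3 m)))))) atTop (𝓝 q) := hP.comp hφ3.tendsto_atTop
  have hQC : Q ∈ C := by
    refine h.mem_of_le hq ?_
    refine isClosed_closure.mem_of_tendsto (hQ.sub hP3) (Eventually.of_forall fun m => ?_)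
    exact hlow (φ2 (φ3 m))
  obtain ⟨φ4, W', hφ4, hW', hWsum', hWP'⟩ := lps n C Γ h (Fin K) hcard
    (fun m i => s (φ2 (φ3 m)) • act (g (φ2 (φ3 m)))
      (c (φ1 (φ2 (φ3 m))) i • x (φ1 (φ2 (φ3 m))) i)) Q (fun m => hb (φ2 (φ3 m))) hQC
    (by simp only [hbsum]; exact hQ)
  have hP4 : Tendsto (fun m => s (φ2 (φ3 (φ4 m))) • act (g (φ2 (φ3 (φ4 m))))
      (pt w (u (φ1 (φ2 (φ3 (φ4 m))))))) atTop (𝓝 q) := hP3.comp hφ4.tendsto_atTop
  have hW4 : ∀ i, Tendsto (fun m => s (φ2 (φ3 (φ4 m))) • act (g (φ2 (φ3 (φ4 m))))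
      ((2 : ℝ) ^ (u (φ1 (φ2 (φ3 (φ4 m)))) i) • w i)) atTop (𝓝 (W i)) := fun i =>
    (hW i).comp (hφ3.comp hφ4).tendsto_atTop
  -- invariance of nearness
  have near_iff : ∀ (m : ℕ) (M : ℝ) (p : V n),
      Near C M (fun i => s (φ2 (φ3 (φ4 m))) • act (g (φ2 (φ3 (φ4 m))))
        (c (φ1 (φ2 (φ3 (φ4 m)))) i • x (φ1 (φ2 (φ3 (φ4 m)))) i))
        (s (φ2 (φ3 (φ4 m))) • act (g (φ2 (φ3 (φ4 m)))) p) ↔
      Near C M (x (φ1 (φ2 (φ3 (φ4 m))))) p := by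
    intro m M p
    have h1 := (nin n C Γ h K (fun i => c (φ1 (φ2 (φ3 (φ4 m)))) i • x (φ1 (φ2 (φ3 (φ4 m)))) i)
      p M).1 (g (φ2 (φ3 (φ4 m)))) (hg _) (s (φ2 (φ3 (φ4 m)))) (s (φ2 (φ3 (φ4 m)))) (hs _) (hs _)
    have h2 := (nin n C Γ h K (fun i => c (φ1 (φ2 (φ3 (φ4 m)))) i • x (φ1 (φ2 (φ3 (φ4 m)))) i)
      p M).2.2.2 (x (φ1 (φ2 (φ3 (φ4 m))))) (same_refl_smul _ _ (hcpos _))
    exact h1.trans h2
  refine ⟨fun m => φ1 (φ2 (φ3 (φ4 m))), W, W', hφ1.comp (hφ2.comp (hφ3.comp hφ4)), hWP, hWP',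
    ?_, ?_⟩
  · rintro ⟨σ, d, hd, hWd⟩
    have hqW' : q ∈ PosCone W' := by
      refine ⟨fun j => d (σ.symm j), fun j => hd _, ?_⟩
      rw [← hWsum]
      have h1 : ∑ j, d (σ.symm j) • W' j = ∑ i, d i • W' (σ i) := by
        rw [← Equiv.sum_comp σ]
        simp
      rw [h1]
      exact Finset.sum_congr rfl fun i _ => hWd i
    have hev := nop n C h.toPCone (Fin K) _ W' _ q M₂ hM2 hq hqW' hW' hP4
    obtain ⟨m, hm⟩ := hev.exists
    exact hn2 _ ((near_iff m M₂ _).mp hm)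
  · intro v M hfr
    have hlimv : Tendsto (fun m => s (φ2 (φ3 (φ4 m))) • act (g (φ2 (φ3 (φ4 m))))
        (pt w (fun i => u (φ1 (φ2 (φ3 (φ4 m)))) i + v i))) atTop (𝓝 (pt W v)) := by
      have h1 : Tendsto (fun m => ∑ i, (2 : ℝ) ^ (v i) •
          (s (φ2 (φ3 (φ4 m))) • act (g (φ2 (φ3 (φ4 m))))
            ((2 : ℝ) ^ (u (φ1 (φ2 (φ3 (φ4 m)))) i) • w i))) atTop (𝓝 (pt W v)) :=
        tendsto_finsetSum _ fun i _ => (hW4 i).const_smul _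
      refine h1.congr fun m => ?_
      unfold pt
      rw [CC.act_sum, Finset.smul_sum]
      refine Finset.sum_congr rfl fun i _ => ?_
      rw [CC.act_smul, CC.act_smul, smul_smul, smul_smul, smul_smul]
      congr 1
      rw [zpow_add₀ (by norm_num : (2 : ℝ) ≠ 0)]
      ring
    refine ncl n C h.toPCone (Fin K) _ W' _ (pt W v) M hWP'.1 ?_ hW' (hWP.1.pt_mem v) hlimv ?_
    · intro m i
      exact (hb (φ2 (φ3 (φ4 m)))).1.cl i
    · refine hfr.mono fun m hm => ?_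
      exact (near_iff m M _).mpr hm

end Pool.Agent.PFS.H75
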